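import Pool.Agent.Q56.EE.Gen

/-!
# The inequality of Q1 up to an additive error which does not depend on the positions

For every non-negative matrix with row sums at most `R` and column sums at most `C` and every odd
number `t` of distinct zero positions the double sum is at most
`(t - 1) * R * C + min R C ^ 2 / 2`.
-/

namespace Pool.Agent.Results.MP_ee21b2_co.HalfSquareError

theorem result :
    ∀ (n k t : ℕ) (M : Matrix (Fin n) (Fin k) ℝ) (R C : ℝ),
      (∀ x y, 0 ≤ M x y) → (∀ x, ∑ y, M x y ≤ R) → (∀ y, ∑ x, M x y ≤ C) → Odd t →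
      ∀ p : Fin t → Fin n × Fin k, Function.Injective p → (∀ i, M (p i).1 (p i).2 = 0) →
      ∑ i, ∑ j, M (p i).1 (p j).2 * M (p j).1 (p i).2 ≤
        ((t : ℝ) - 1) * R * C + min R C ^ 2 / 2 := by
  intro n k t M R C hM hr hc ht p hp h0
  rw [Pool.Agent.Q56.EE.dsum_image p hp fun x y => M x y]
  have hcard := Pool.Agent.Q56.EE.card_image p hp
  have h := Pool.Agent.Q56.EE.bound_gen (P := Finset.univ.image p) (M := fun x y => M x y)
    hM hr hc
    (fun a ha => by
      obtain ⟨i, _, rfl⟩ := Finset.mem_image.mp ha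
      exact h0 i)
    (by rw [hcard]; exact ht)
  rw [hcard] at h
  exact h

end Pool.Agent.Results.MP_ee21b2_co.HalfSquareError
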